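import Mathlib
import Pool.Agent.H.MP_c7d282_an.E

set_option autoImplicit false

namespace Pool.Agent.Results.MP_c7d282_an.No2

open Matrix

/-- `g`-tuples of `n × n` complex matrices -/
abbrev Tup (g : ℕ) (n : ℕ+) := Fin g → Matrix (Fin n) (Fin n) ℂ

/-- graded sets `K = (K n)`, `n ≥ 1` -/
abbrev Gr (g : ℕ) := ∀ n : ℕ+, Set (Tup g n)

/-- `X = ∑ V_i^* Y_i V_i` with `∑ V_i^* V_i = 1` -/
def IsComb {g : ℕ} {n : ℕ+} (X : Tup g n) {k : ℕ} (m : Fin k → ℕ+) (Y : ∀ i, Tup g (m i))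
    (V : ∀ i, Matrix (Fin (m i)) (Fin n) ℂ) : Prop :=
  ∑ i, (V i)ᴴ * V i = 1 ∧ ∀ j, X j = ∑ i, (V i)ᴴ * Y i j * V i

/-- matrix convex hull (no closure) -/
def mconv {g : ℕ} (S : Gr g) : Gr g := fun n =>
  {X | ∃ (k : ℕ) (m : Fin k → ℕ+) (Y : ∀ i, Tup g (m i)) (V : ∀ i, Matrix (Fin (m i)) (Fin n) ℂ),
    (∀ i, Y i ∈ S (m i)) ∧ IsComb X m Y V}

/-- unitary equivalence of tuples -/
def UEq {g : ℕ} {α β : Type} [Fintype α] [DecidableEq α] [Fintype β] [DecidableEq β]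
    (X : Fin g → Matrix α α ℂ) (Y : Fin g → Matrix β β ℂ) : Prop :=
  ∃ U : Matrix α β ℂ, Uᴴ * U = 1 ∧ U * Uᴴ = 1 ∧ ∀ j, Y j = Uᴴ * X j * U

/-- free extreme points -/
def freeExt {g : ℕ} (K : Gr g) : Gr g := fun n =>
  {X | X ∈ K n ∧ ∀ (k : ℕ) (m : Fin k → ℕ+) (Y : ∀ i, Tup g (m i))
    (V : ∀ i, Matrix (Fin (m i)) (Fin n) ℂ), (∀ i, Y i ∈ K (m i)) → (∀ i, V i ≠ 0) →
    IsComb X m Y V → ∀ i, (m i = n ∧ UEq X (Y i)) ∨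
      (n < m i ∧ ∃ p : ℕ+, ∃ Z ∈ K p, UEq (fun j => fromBlocks (X j) 0 0 (Z j)) (Y i))}

/-- projection onto the first `h` coordinates -/
def proj {g h : ℕ} (hg : h < g) (K : Gr g) : Gr h := fun n =>
  {X | ∃ Y ∈ K n, ∀ j, X j = Y (Fin.castLE hg.le j)}

theorem result : ∃ (g h : ℕ) (hg : h < g) (K : Gr g),
    (∀ n, ∀ X ∈ K n, ∀ j, (X j).IsHermitian) ∧
    (∀ n, mconv K n ⊆ K n) ∧
    (∀ n, IsClosed (K n)) ∧
    (∀ n, ∀ X ∈ K n, ∀ j a b, ‖X j a b‖ ≤ 1) ∧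
    K = mconv (freeExt K) ∧
    (∀ n, (proj hg K n).Nonempty) ∧
    (∀ n, freeExt (proj hg K) n = ∅) ∧
    proj hg K ≠ mconv (freeExt (proj hg K)) :=
  Pool.Agent.H.MP_c7d282_an.main

end Pool.Agent.Results.MP_c7d282_an.No2
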